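import Pool.Agent.Helper78.JT.Goals2
import Pool.Agent.Helper39.DT.Apx

/-!
# Project JT, packet APJ: the approximation theorem for tuples of lists
-/

set_option autoImplicit false

namespace Pool.Agent.Helper63.JT

open Pool.Agent.Helper78.DT Pool.Agent.Helper78.JT Pool.Agent.Helper39.DT

theorem Zl_dvd (R d : ℕ → ℕ) {l m : ℕ} (h : l ≤ m) : Zl R d l ∣ Zl R d m := by
  induction m, h using Nat.le_induction with
  | base => exact dvd_rfl
  | succ m _ ih => exact ih.trans (Dvd.intro _ rfl)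

theorem Zl_pos {R d : ℕ → ℕ} {l : ℕ} (h : ∀ j < l, 0 < R j) : 0 < Zl R d l := by
  induction l with
  | zero => exact Nat.one_pos
  | succ l ih =>
    exact Nat.mul_pos (ih fun j hj => h j (by omega)) (pow_pos (h l (by omega)) _)

theorem dg_mod {R D X w i : ℕ} (h : i < D) : dg R (w % (R ^ D * X)) i = dg R w i := by
  unfold dg
  have e : R ^ D * X = R ^ i * (R ^ (D - i) * X) := by
    rw [← mul_assoc, ← pow_add]
    congr 2
    omega
  rw [e, Nat.mod_mul_right_div_self, Nat.mod_mod_of_dvd]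
  exact (dvd_pow_self R (by omega)).trans (Dvd.intro _ rfl)

theorem ch_mod (R d : ℕ → ℕ) (θ a m : ℕ) : ∀ l, l ≤ m →
    ch R d (θ % Zl R d m) a l = ch R d θ a l := by
  intro l
  induction l with
  | zero => intro _; rfl
  | succ l ih =>
    intro hl
    rw [ch, ch, ih (by omega)]
    refine pv_congr fun i hi => ?_
    obtain ⟨X, hX⟩ := Zl_dvd R d hl
    have e : Zl R d m = Zl R d l * (R l ^ d l * X) := by
      rw [hX, Zl, mul_assoc]
    rw [e, Nat.mod_mul_right_div_self]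
    exact dg_mod hi

theorem cnj_congr {z : ℕ → ℕ → Bool} {P K t e : ℕ} (hK : 0 < K) {A A' s s' : ℕ → ℕ}
    (hA : ∀ i < t + 2, A i = A' i) (hs : ∀ i < K, s i = s' i) :
    cnj z P K t e A s = cnj z P K t e A' s' := by
  funext v
  unfold cnj
  rw [pt_congr (P := P) (K := K) (e := e) hA]
  have h1 : pt P K t e A' v < K := Nat.mod_lt _ hK
  rw [hs _ h1]

theorem listsJ_mono {n w w' r : ℕ} (hw : w ≤ w') {F : ℕ → ℕ → (ℕ → ℕ) → (ℕ → Bool) → Bool}
    (h : ListsJ n w r F) : ListsJ n w' r F := by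
  obtain ⟨f, H, hW, hf⟩ := h
  exact ⟨f, H, fun j x hx => (hW j x hx).trans hw, hf⟩

theorem apj (hTgj : TgjStmt) (hPja : PjaStmt) (hPjb : PjbStmt) (hDgj : DgjStmt) : ApjStmt := by
  intro c1 c0 e
  obtain ⟨a, β, L1, h1⟩ := hPja (c0 + c1) e
  obtain ⟨C, L2, h2⟩ := hPjb (c0 + c1) a e β
  refine ⟨a, β, C, max (max L1 L2) 1, ?_⟩
  intro n N r F hnN hLi hr hL
  set c := c0 + c1 with hc
  set L := lg N with hLdef
  obtain ⟨hP, hK0, hKP, hq0, hδ, hε, hD, hch, hη, hη1, hκ, hηt, herr⟩ :=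
    h1 L (le_trans (le_trans (le_max_left _ _) (le_max_left _ _)) hL) r hr
  obtain ⟨n1, n2⟩ := two_pow_lg N
  rw [← hLdef] at n1 n2
  have hL1 : 1 ≤ L := le_trans (le_max_right _ _) hL
  have hcap : 2 ^ (C * L) ≤ (4 * N + 4) ^ C := by
    rw [mul_comm, pow_mul]
    exact Nat.pow_le_pow_left n2 C
  have hZ := h2 L (le_trans (le_trans (le_max_right _ _) (le_max_left _ _)) hL) _ hcap
  have hzn : znj c a β e C N = ZZj c a β e L := hZ
  set Z := ZZj c a β e L with hZdef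
  have hZl : 0 < Zl (Rj a e L) (dj a e L) (e + 1) :=
    Zl_pos fun j hj => (hch j (by omega)).1.pos
  have hZpos : 0 < Z := by
    rw [hZdef]
    unfold ZZj
    exact Nat.mul_pos (Nat.mul_pos (pow_pos hP.pos _) hZl)
      (pow_pos (Nat.mul_pos hq0 hP.pos) _)
  set G : (ℕ → ℕ) → ℕ → (ℕ → ℕ) → Bool := fun A' θ s'' =>
    F (Kj c a β e L) (tj a e L) (pt (Pj c L) (Kj c a β e L) (tj a e L) L A')
      (cut n (cnj
        (fun x u => sb (Pj c L) (Dj a e L) (ch (Rj a e L) (dj a e L) θ x (e + 1)) u)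
        (Pj c L) (Kj c a β e L) (tj a e L) L A' s'')) with hG
  have hdig := hDgj (Pj c L) (Zl (Rj a e L) (dj a e L) (e + 1)) (qj c L * Pj c L) (tj a e L + 2)
    (Kj c a β e L) G (by
      intro A1 A2 s1 s2 θ e1 e2
      simp only [hG]
      rw [pt_congr e1, cnj_congr hK0 e1 e2]) (by
      intro A1 s1 θ
      simp only [hG]
      have e1 : ∀ x, ch (Rj a e L) (dj a e L) (θ % Zl (Rj a e L) (dj a e L) (e + 1)) x (e + 1) =
          ch (Rj a e L) (dj a e L) θ x (e + 1) := fun x => ch_mod _ _ _ _ _ _ le_rfl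
      simp only [e1])
  set ρ : ℝ := pr fun z : (Fin (tj a e L + 2) → Fin (Pj c L)) ×
    Fin (Zl (Rj a e L) (dj a e L) (e + 1)) ×
    (Fin (Kj c a β e L) → Fin (qj c L * Pj c L)) => G (ext z.1) z.2.1 (ext z.2.2) = true
    with hρ
  have han : (anj F n c a β e C N : ℝ) = Z * ρ := by
    unfold anj
    rw [hzn]
    exact hdig
  have hLi' : ListsJ n (WW c L) r F :=
    listsJ_mono (by unfold WW; exact Nat.mul_le_mul_right _ (by omega)) hLi
  have htot := hTgj n (WW c L) (Kj c a β e L) (tj a e L) L (Pj c L) (qj c L) r (sj a e L)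
    (Dj a e L) e (Rj a e L) (dj a e L) (kj a e L) (Mj c a e L) (ηp a) (κj a e L) (δj c L)
    (εj a e L) F hLi' hP hK0 hKP hq0 (by omega) hδ hε hD rfl (fun j => rfl) hch hη hη1 hκ hηt
  have htot' : |ρ - pr (fun b : Fin n → Bool => F 0 0 (fun _ => 0) (cf b) = true)| <
      1 / (2 * (L : ℝ) ^ c) := lt_of_le_of_lt htot herr
  have hL1r : (1 : ℝ) ≤ L := by exact_mod_cast hL1
  have hlc : (0 : ℝ) < (L : ℝ) ^ c0 := pow_pos (by linarith) c0
  have hLc : (L : ℝ) ^ c0 ≤ (L : ℝ) ^ c := pow_le_pow_right₀ hL1r (by omega)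
  have hbd : 1 / (2 * (L : ℝ) ^ c) ≤ 1 / (2 * (L : ℝ) ^ c0) :=
    one_div_le_one_div_of_le (by linarith) (by linarith)
  -- rounding
  have hapx : Pool.Agent.Helper78.JT.apj F n c a β e C c0 N =
      (2 * L ^ c0 * anj F n c a β e C N + Z) / (2 * Z) := by
    unfold Pool.Agent.Helper78.JT.apj
    rw [hzn]
  set m := Pool.Agent.Helper78.JT.apj F n c a β e C c0 N with hm
  have hZr : (0 : ℝ) < Z := by exact_mod_cast hZpos
  have r1 : (m : ℝ) * (2 * Z) ≤ 2 * (L : ℝ) ^ c0 * (Z * ρ) + Z := by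
    rw [← han]
    have : m * (2 * Z) ≤ 2 * L ^ c0 * anj F n c a β e C N + Z := by
      rw [hapx]
      exact Nat.div_mul_le_self _ _
    exact_mod_cast this
  have r2 : 2 * (L : ℝ) ^ c0 * (Z * ρ) + Z < ((m : ℝ) + 1) * (2 * Z) := by
    rw [← han]
    have : 2 * L ^ c0 * anj F n c a β e C N + Z < (m + 1) * (2 * Z) := by
      rw [hapx, add_mul, one_mul]
      exact Nat.lt_div_mul_add (Nat.mul_pos two_pos hZpos)
    exact_mod_cast this
  have r3 : |(m : ℝ) - (L : ℝ) ^ c0 * ρ| ≤ 1 / 2 := by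
    apply rounding hZr
    · linarith
    · linarith
  exact final_bound hlc r3 htot' hbd

end Pool.Agent.Helper63.JT
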