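import Pool.Agent.Helper78.JT.Goals3
import Pool.Agent.Helper37.DT.PTR

/-!
# Project JT, packet CKP: the circuits are evaluated in polynomial time
-/

set_option autoImplicit false

namespace Pool.Agent.Helper63.JT

open Pool.Agent.Helper78.JT
open Pool.Agent.Helper81.CC hiding scan
open Pool.Agent.Helper78.AO (PolyR)
open Pool.Agent.Helper51.ZP (sz_bools)

/-! ### Reading a long clause -/

/-- One step of `rdl`: the state is a mark (`0`: reading; `1`: true; `2`: failed), the number of the
variables which may still be read, and the list of the names read so far. -/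
def rstp (n : ℕ) (b : ℕ → Bool) (w : ℕ × ℕ × List ℕ) (p : ℕ × Bool) : ℕ × ℕ × List ℕ :=
  if w.1 = 0 then
    if p.1 ∈ w.2.2 ∨ n ≤ p.1 then
      if b p.1 = p.2 then (1, w.2) else w
    else if w.2.1 = 0 then (2, w.2)
    else if b p.1 = p.2 then (1, w.2.1 - 1, p.1 :: w.2.2)
    else (0, w.2.1 - 1, p.1 :: w.2.2)
  else w

theorem foldl_rstp (n : ℕ) (b : ℕ → Bool) (C : Clause) (w : ℕ × ℕ × List ℕ) (hw : w.1 ≠ 0) :
    C.foldl (rstp n b) w = w := by
  induction C with
  | nil => rfl
  | cons p C ih =>
    rw [List.foldl_cons]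
    have : rstp n b w p = w := by
      unfold rstp
      rw [if_neg hw]
    rw [this, ih]

theorem rdl_eq (n : ℕ) (b : ℕ → Bool) (C : Clause) : ∀ (s : ℕ) (Q : List ℕ),
    rdl n b C s Q = if (C.foldl (rstp n b) (0, s, Q)).1 = 1 then
      some (C.foldl (rstp n b) (0, s, Q)).2 else none := by
  induction C with
  | nil =>
    intro s Q
    rw [rdl, List.foldl_nil]
    rfl
  | cons p C ih =>
    intro s Q
    rw [rdl, List.foldl_cons]
    by_cases h1 : p.1 ∈ Q ∨ n ≤ p.1
    · by_cases h2 : b p.1 = p.2
      · have h : rstp n b (0, s, Q) p = (1, s, Q) := by simp [rstp, h1, h2]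
        rw [h, foldl_rstp n b C _ (by simp), if_pos h1, if_pos h2]
        rfl
      · have h : rstp n b (0, s, Q) p = (0, s, Q) := by simp [rstp, h1, h2]
        rw [h, if_pos h1, if_neg h2, ih]
    · by_cases h3 : s = 0
      · have h : rstp n b (0, s, Q) p = (2, s, Q) := by simp [rstp, h1, h3]
        rw [h, foldl_rstp n b C _ (by simp), if_neg h1, if_pos h3]
        rfl
      · by_cases h2 : b p.1 = p.2
        · have h : rstp n b (0, s, Q) p = (1, s - 1, p.1 :: Q) := by simp [rstp, h1, h2, h3]
          rw [h, foldl_rstp n b C _ (by simp), if_neg h1, if_neg h3, if_pos h2]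
          rfl
        · have h : rstp n b (0, s, Q) p = (0, s - 1, p.1 :: Q) := by simp [rstp, h1, h2, h3]
          rw [h, if_neg h1, if_neg h3, if_neg h2, ih]

theorem sz_rdl (n : ℕ) (b : ℕ → Bool) (C : Clause) : ∀ (s : ℕ) (Q : List ℕ) (q : ℕ × List ℕ),
    rdl n b C s Q = some q → sz q ≤ 2 * s + 1 + sz Q + 1 + sz C := by
  induction C with
  | nil =>
    intro s Q q h
    rw [rdl] at h
    exact absurd h (by simp)
  | cons p C ih =>
    intro s Q q h
    rw [rdl] at h
    rw [sz_cons]
    have hp : sz p = sz p.1 + sz p.2 + 1 := by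
      obtain ⟨x, y⟩ := p
      exact sz_pair x y
    split_ifs at h with h1 h2 h3 h4
    · have := Option.some.inj h
      subst this
      rw [sz_pair, sz_nat]
      omega
    · have := ih _ _ _ h
      omega
    · have := Option.some.inj h
      subst this
      rw [sz_pair, sz_nat, sz_cons]
      omega
    · have := ih _ _ _ h
      rw [sz_cons] at this
      omega

/-! ### Reading a CNF -/

/-- One step of `scan`: the state consists of the number of the clauses which may still be read, the
number of the variables which may still be read in long clauses, and the list of the names read so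
far, or it is `none`. -/
def stp (n k : ℕ) (b : ℕ → Bool) (o : Option (ℕ × ℕ × List ℕ)) (C : Clause) :
    Option (ℕ × ℕ × List ℕ) :=
  o.elim none fun p =>
    if known n b p.2.2 C = true then some p
    else if C.length ≤ k then
      if p.1 = 0 then none
      else if (C.any fun p => decide (b p.1 = p.2)) = true then
        some (p.1 - 1, p.2.1, C.map Prod.fst ++ p.2.2)
      else none
    else (rdl n b C p.2.1 p.2.2).elim none fun q => some (p.1, q)

theorem foldl_none (n k : ℕ) (b : ℕ → Bool) (F : List Clause) :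
    F.foldl (stp n k b) none = none := by
  induction F with
  | nil => rfl
  | cons C F ih => exact ih

theorem scan_eq (n k : ℕ) (b : ℕ → Bool) (F : List Clause) : ∀ (s s' : ℕ) (Q : List ℕ),
    scan n k b F s s' Q =
      (F.foldl (stp n k b) (some (s, s', Q))).elim none fun p => some p.2.2 := by
  induction F with
  | nil => intro s s' Q; rfl
  | cons C F ih =>
    intro s s' Q
    rw [scan, List.foldl_cons]
    have hs : stp n k b (some (s, s', Q)) C = if known n b Q C = true then some (s, s', Q)
        else if C.length ≤ k then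
          if s = 0 then none
          else if (C.any fun p => decide (b p.1 = p.2)) = true then
            some (s - 1, s', C.map Prod.fst ++ Q)
          else none
        else (rdl n b C s' Q).elim none fun q => some (s, q) := rfl
    rw [hs]
    split_ifs with h1 h2 h3 h4
    · exact ih _ _ _
    · rw [foldl_none]; rfl
    · exact ih _ _ _
    · rw [foldl_none]; rfl
    · cases h5 : rdl n b C s' Q with
      | none =>
        rw [Option.elim_none, foldl_none]; rfl
      | some q =>
        obtain ⟨u, Q'⟩ := q
        rw [Option.elim_some]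
        exact ih _ _ _

section
variable {γ : Type} [ToData γ]

theorem pt_opp {C : γ → Clause} (hC : PolyTime C) : PolyTime fun c => opp (C c) := by
  unfold opp
  refine PolyTime.any (f := fun c (p : ℕ × Bool) => decide ((p.1, !p.2) ∈ C c)) hC ?_
  exact PolyTime.decide_mem (f := fun z : γ × (ℕ × Bool) => (z.2.1, !z.2.2))
    (l := fun z => C z.1) (by fun_prop) (by fun_prop)

theorem pt_sat {b : γ → ℕ → Bool} {C : γ → Clause} (hb : PolyTime (fun z : γ × ℕ => b z.1 z.2))
    (hC : PolyTime C) : PolyTime fun c => (C c).any fun p => decide (b c p.1 = p.2) := by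
  refine PolyTime.any (f := fun c (p : ℕ × Bool) => decide (b c p.1 = p.2)) hC ?_
  have h1 : PolyTime fun z : γ × (ℕ × Bool) => b z.1 z.2.1 :=
    PolyTime.comp (g := fun z : γ × ℕ => b z.1 z.2) (f := fun z : γ × (ℕ × Bool) => (z.1, z.2.1))
      hb (by fun_prop)
  exact PolyTime.decide_eq h1 (by fun_prop)

theorem pt_known {n : γ → ℕ} {b : γ → ℕ → Bool} {Q : γ → List ℕ} {C : γ → Clause}
    (hn : PolyTime n) (hb : PolyTime (fun z : γ × ℕ => b z.1 z.2)) (hQ : PolyTime Q)
    (hC : PolyTime C) : PolyTime fun c => known (n c) (b c) (Q c) (C c) := by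
  unfold known
  refine PolyTime.or (pt_opp hC) ?_
  refine PolyTime.any (f := fun c (p : ℕ × Bool) =>
    decide (b c p.1 = p.2) && (decide (p.1 ∈ Q c) || decide (n c ≤ p.1))) hC ?_
  have h1 : PolyTime fun z : γ × (ℕ × Bool) => b z.1 z.2.1 :=
    PolyTime.comp (g := fun z : γ × ℕ => b z.1 z.2) (f := fun z : γ × (ℕ × Bool) => (z.1, z.2.1))
      hb (by fun_prop)
  refine PolyTime.and (PolyTime.decide_eq h1 (by fun_prop)) (PolyTime.or ?_ ?_)
  · exact PolyTime.decide_mem (f := fun z : γ × (ℕ × Bool) => z.2.1)
      (l := fun z => Q z.1) (by fun_prop) (by fun_prop)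
  · exact PolyTime.decide_le (by fun_prop) (by fun_prop)

theorem pt_rstp {n : γ → ℕ} {b : γ → ℕ → Bool} {w : γ → ℕ × ℕ × List ℕ} {p : γ → ℕ × Bool}
    (hn : PolyTime n) (hb : PolyTime (fun z : γ × ℕ => b z.1 z.2)) (hw : PolyTime w)
    (hp : PolyTime p) : PolyTime fun c => rstp (n c) (b c) (w c) (p c) := by
  unfold rstp
  have h1 : PolyTime fun c => b c (p c).1 :=
    PolyTime.comp (g := fun z : γ × ℕ => b z.1 z.2) (f := fun c => (c, (p c).1))
      hb (by fun_prop)
  have h2 : PolyTime fun c => decide (b c (p c).1 = (p c).2) :=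
    PolyTime.decide_eq h1 (by fun_prop)
  have h3 : PolyTime fun c => decide ((p c).1 ∈ (w c).2.2 ∨ n c ≤ (p c).1) :=
    PolyTime.decide_or (PolyTime.decide_mem (by fun_prop) (by fun_prop))
      (PolyTime.decide_le (by fun_prop) (by fun_prop))
  refine PolyTime.itep (PolyTime.decide_eq (by fun_prop) (by fun_prop)) ?_ (by fun_prop)
  refine PolyTime.itep h3 (PolyTime.itep h2 (by fun_prop) (by fun_prop)) ?_
  refine PolyTime.itep (PolyTime.decide_eq (by fun_prop) (by fun_prop)) (by fun_prop) ?_
  exact PolyTime.itep h2 (by fun_prop) (by fun_prop)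

theorem pt_rdl {n s : γ → ℕ} {b : γ → ℕ → Bool} {C : γ → Clause} {Q : γ → List ℕ}
    (hn : PolyTime n) (hb : PolyTime (fun z : γ × ℕ => b z.1 z.2)) (hC : PolyTime C)
    (hs : PolyTime s) (hQ : PolyTime Q) : PolyTime fun c => rdl (n c) (b c) (C c) (s c) (Q c) := by
  have h1 : PolyTime fun c => (C c).foldl (rstp (n c) (b c)) (0, s c, Q c) := by
    refine PolyTime.foldl_add (l := C) (s0 := fun c => ((0, s c, Q c) : ℕ × ℕ × List ℕ))
      (step := fun c w p => rstp (n c) (b c) w p) hC (by fun_prop) ?_
      (C := fun c => sz (C c) + 5) (hC.bd.add (PBd.const 5)) ?_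
    · refine pt_rstp (γ := γ × (ℕ × ℕ × List ℕ) × (ℕ × Bool)) (n := fun z => n z.1)
        (b := fun z => b z.1) (w := fun z => z.2.1) (p := fun z => z.2.2) (by fun_prop) ?_
        (by fun_prop) (by fun_prop)
      exact PolyTime.comp (g := fun z : γ × ℕ => b z.1 z.2)
        (f := fun y : (γ × (ℕ × ℕ × List ℕ) × (ℕ × Bool)) × ℕ => (y.1.1, y.2)) hb (by fun_prop)
    · intro c w p hp
      have h4 : sz p ≤ sz (C c) := sz_le_of_mem hp
      obtain ⟨i, u, Q⟩ := w
      obtain ⟨v, d⟩ := p
      rw [sz_pair] at h4
      change sz (rstp (n c) (b c) (i, u, Q) (v, d)) ≤ _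
      unfold rstp
      simp only
      split_ifs <;> simp only [sz_pair, sz_nat, sz_cons] at h4 ⊢ <;> omega
  have h2 : PolyTime fun c => if ((C c).foldl (rstp (n c) (b c)) (0, s c, Q c)).1 = 1 then
      some ((C c).foldl (rstp (n c) (b c)) (0, s c, Q c)).2 else none :=
    PolyTime.itep (PolyTime.decide_eq (PolyTime.fst h1) (by fun_prop))
      (PolyTime.some (PolyTime.snd h1)) (by fun_prop)
  exact PolyTime.congr h2 fun c => (rdl_eq _ _ _ _ _).symm

theorem pt_stp (k : ℕ) {n : γ → ℕ} {b : γ → ℕ → Bool} {o : γ → Option (ℕ × ℕ × List ℕ)}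
    {C : γ → Clause}
    (hn : PolyTime n) (hb : PolyTime (fun z : γ × ℕ => b z.1 z.2)) (ho : PolyTime o)
    (hC : PolyTime C) : PolyTime fun c => stp (n c) k (b c) (o c) (C c) := by
  unfold stp
  refine PolyTime.option_elim (g := fun c (p : ℕ × ℕ × List ℕ) =>
    if known (n c) (b c) p.2.2 (C c) = true then some p
    else if (C c).length ≤ k then
      if p.1 = 0 then none
      else if ((C c).any fun p => decide (b c p.1 = p.2)) = true then
        some (p.1 - 1, p.2.1, (C c).map Prod.fst ++ p.2.2)
      else none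
    else (rdl (n c) (b c) (C c) p.2.1 p.2.2).elim none fun q => some (p.1, q))
    ho (by fun_prop) ?_
  have hb' : PolyTime (fun y : (γ × (ℕ × ℕ × List ℕ)) × ℕ => b y.1.1 y.2) :=
    PolyTime.comp (g := fun z : γ × ℕ => b z.1 z.2)
      (f := fun y : (γ × (ℕ × ℕ × List ℕ)) × ℕ => (y.1.1, y.2)) hb (by fun_prop)
  have h1 : PolyTime fun z : γ × (ℕ × ℕ × List ℕ) => known (n z.1) (b z.1) z.2.2.2 (C z.1) :=
    pt_known (γ := γ × (ℕ × ℕ × List ℕ)) (n := fun z => n z.1) (b := fun z => b z.1)
      (Q := fun z => z.2.2.2) (C := fun z => C z.1) (by fun_prop) hb' (by fun_prop) (by fun_prop)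
  have h2 : PolyTime fun z : γ × (ℕ × ℕ × List ℕ) =>
      (C z.1).any fun p => decide (b z.1 p.1 = p.2) :=
    pt_sat (γ := γ × (ℕ × ℕ × List ℕ)) (b := fun z => b z.1) (C := fun z => C z.1) hb'
      (by fun_prop)
  have h3 : PolyTime fun z : γ × (ℕ × ℕ × List ℕ) => (C z.1).map Prod.fst :=
    PolyTime.list_map (l := fun z : γ × (ℕ × ℕ × List ℕ) => C z.1)
      (f := fun _ (p : ℕ × Bool) => p.1) (by fun_prop) (by fun_prop)
  have h4 : PolyTime fun z : γ × (ℕ × ℕ × List ℕ) =>
      rdl (n z.1) (b z.1) (C z.1) z.2.2.1 z.2.2.2 :=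
    pt_rdl (γ := γ × (ℕ × ℕ × List ℕ)) (n := fun z => n z.1) (b := fun z => b z.1)
      (C := fun z => C z.1) (s := fun z => z.2.2.1) (Q := fun z => z.2.2.2) (by fun_prop) hb'
      (by fun_prop) (by fun_prop) (by fun_prop)
  refine PolyTime.itep (PolyTime.decide_eq h1 (by fun_prop)) (by fun_prop) ?_
  refine PolyTime.itep (PolyTime.decide_le (by fun_prop) (by fun_prop)) ?_ ?_
  · refine PolyTime.itep (PolyTime.decide_eq (by fun_prop) (by fun_prop)) (by fun_prop) ?_
    refine PolyTime.itep (PolyTime.decide_eq h2 (by fun_prop)) ?_ (by fun_prop)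
    exact PolyTime.some (PolyTime.pair (by fun_prop)
      (PolyTime.pair (by fun_prop) (PolyTime.append h3 (by fun_prop))))
  · exact PolyTime.option_elim (g := fun (z : γ × (ℕ × ℕ × List ℕ)) (q : ℕ × List ℕ) =>
      some (z.2.1, q)) h4 (by fun_prop) (by fun_prop)

theorem pt_scan (k : ℕ) {n s s' : γ → ℕ} {b : γ → ℕ → Bool} {F : γ → List Clause}
    (hn : PolyTime n) (hb : PolyTime (fun z : γ × ℕ => b z.1 z.2)) (hF : PolyTime F)
    (hs : PolyTime s) (hs' : PolyTime s') :
    PolyTime fun c => scan (n c) k (b c) (F c) (s c) (s' c) [] := by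
  have h3 : PolyTime fun c => (F c).map fun C : Clause => C.map Prod.fst := by
    refine PolyTime.list_map (l := F) (f := fun _ (C : Clause) => C.map Prod.fst) hF ?_
    exact PolyTime.list_map (l := fun z : γ × Clause => z.2)
      (f := fun _ (p : ℕ × Bool) => p.1) (by fun_prop) (by fun_prop)
  have h1 : PolyTime fun c => (F c).foldl (stp (n c) k (b c)) (some (s c, s' c, [])) := by
    refine PolyTime.foldl_add (l := F)
      (s0 := fun c => (some (s c, s' c, []) : Option (ℕ × ℕ × List ℕ)))
      (step := fun c o C => stp (n c) k (b c) o C) hF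
      (PolyTime.some (PolyTime.pair hs (PolyTime.pair hs' (by fun_prop)))) ?_
      (C := fun c => sz ((F c).map fun C : Clause => C.map Prod.fst) + sz (F c) + 2)
      ((h3.bd.add hF.bd).add (PBd.const 2)) ?_
    · refine pt_stp k (γ := γ × Option (ℕ × ℕ × List ℕ) × Clause) (n := fun z => n z.1)
        (b := fun z => b z.1) (o := fun z => z.2.1) (C := fun z => z.2.2) (by fun_prop) ?_
        (by fun_prop) (by fun_prop)
      exact PolyTime.comp (g := fun z : γ × ℕ => b z.1 z.2)
        (f := fun y : (γ × Option (ℕ × ℕ × List ℕ) × Clause) × ℕ => (y.1.1, y.2)) hb (by fun_prop)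
    · intro c o C hC
      have h4 : sz (C.map Prod.fst) ≤ sz ((F c).map fun C : Clause => C.map Prod.fst) :=
        sz_le_of_mem (List.mem_map_of_mem hC)
      have h6 : sz C ≤ sz (F c) := sz_le_of_mem hC
      change sz (stp (n c) k (b c) o C) ≤ _
      cases o with
      | none =>
        change sz (none : Option (ℕ × ℕ × List ℕ)) ≤ _
        omega
      | some p =>
        obtain ⟨i, u, Q⟩ := p
        have hs : stp (n c) k (b c) (some (i, u, Q)) C =
          if known (n c) (b c) Q C = true then some (i, u, Q)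
          else if C.length ≤ k then
            if i = 0 then none
            else if (C.any fun p => decide (b c p.1 = p.2)) = true then
              some (i - 1, u, C.map Prod.fst ++ Q)
            else none
          else (rdl (n c) (b c) C u Q).elim none fun q => some (i, q) := rfl
        rw [hs]
        have h5 := sz_append (C.map Prod.fst) Q
        split_ifs with h1 h2 h3
        · omega
        · rw [sz_none]
          omega
        · simp only [sz_some, sz_pair, sz_nat]
          omega
        · rw [sz_none]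
          omega
        · cases h7 : rdl (n c) (b c) C u Q with
          | none =>
            rw [Option.elim_none, sz_none]
            omega
          | some q =>
            have h8 := sz_rdl _ _ _ _ _ _ h7
            rw [Option.elim_some]
            simp only [sz_some, sz_pair, sz_nat]
            omega
  have h2 : PolyTime fun c => ((F c).foldl (stp (n c) k (b c)) (some (s c, s' c, []))).elim none
      fun p => some p.2.2 :=
    PolyTime.option_elim (g := fun _ (p : ℕ × ℕ × List ℕ) => some p.2.2) h1 (by fun_prop)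
      (by fun_prop)
  exact PolyTime.congr h2 fun c => (scan_eq _ _ _ _ _ _ _).symm

/-! ### The decision lists -/

theorem pt_okq {n K t : γ → ℕ} {h : γ → ℕ → ℕ} {Q : γ → List ℕ} (hn : PolyTime n)
    (hK : PolyTime K) (ht : PolyTime t) (hh : PolyTime (fun z : γ × ℕ => h z.1 z.2))
    (hQ : PolyTime Q) : PolyTime fun c => okq (n c) (K c) (t c) (h c) (Q c) := by
  unfold okq
  have hr : PolyTime fun c => ((Q c).filter fun v => decide (v < n c)).dedup := by
    refine Pool.Agent.Helper37.DT.pt_dedup ?_
    refine PolyTime.filter (f := fun c v => decide (v < n c)) hQ ?_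
    exact PolyTime.decide_lt (by fun_prop) (by fun_prop)
  refine PolyTime.all (f := fun c j => decide ((((Q c).filter fun v => decide (v < n c)).dedup.filter
    fun v => decide (h c v = j)).length ≤ t c)) (by fun_prop) ?_
  have hr' : PolyTime fun z : γ × ℕ => ((Q z.1).filter fun v => decide (v < n z.1)).dedup :=
    PolyTime.comp (g := fun c => ((Q c).filter fun v => decide (v < n c)).dedup) hr (by fun_prop)
  refine PolyTime.decide_le (PolyTime.length ?_) (by fun_prop)
  refine PolyTime.filter (f := fun (z : γ × ℕ) v => decide (h z.1 v = z.2)) hr' ?_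
  have h2 : PolyTime fun y : (γ × ℕ) × ℕ => h y.1.1 y.2 :=
    PolyTime.comp (g := fun z : γ × ℕ => h z.1 z.2) (f := fun y : (γ × ℕ) × ℕ => (y.1.1, y.2)) hh
      (by fun_prop)
  exact PolyTime.decide_eq h2 (by fun_prop)

/-- The test of an entry of a decision list. -/
def tst (n k s s' K t : ℕ) (h : ℕ → ℕ) (b : ℕ → Bool) (e : List Clause × Bool) : Bool :=
  (scan n k b e.1 s s' []).elim false fun Q => okq n K t h Q

theorem vlK_eq (n k s s' K t : ℕ) (h : ℕ → ℕ) (b : ℕ → Bool) (f : CList) :
    vlK n k s s' K t h b f = (f.find? fun e => tst n k s s' K t h b e).elim false fun e => e.2 := by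
  induction f with
  | nil => rfl
  | cons e f ih =>
    rw [vlK, List.find?_cons]
    unfold tst at ih ⊢
    cases h1 : scan n k b e.1 s s' [] with
    | none => simpa using ih
    | some Q =>
      by_cases h2 : okq n K t h Q = true
      · simp [h2]
      · simp only [Option.elim_some, if_neg h2]
        rw [Bool.eq_false_iff.2 h2]
        exact ih

theorem pt_tst (k : ℕ) {n s s' K t : γ → ℕ} {h : γ → ℕ → ℕ} {b : γ → ℕ → Bool}
    {e : γ → List Clause × Bool} (hn : PolyTime n) (hs : PolyTime s) (hs' : PolyTime s')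
    (hK : PolyTime K) (ht : PolyTime t) (hh : PolyTime (fun z : γ × ℕ => h z.1 z.2))
    (hb : PolyTime (fun z : γ × ℕ => b z.1 z.2)) (he : PolyTime e) :
    PolyTime fun c => tst (n c) k (s c) (s' c) (K c) (t c) (h c) (b c) (e c) := by
  unfold tst
  refine PolyTime.option_elim (g := fun c (Q : List ℕ) => okq (n c) (K c) (t c) (h c) Q)
    (pt_scan k hn hb (PolyTime.fst he) hs hs') (by fun_prop) ?_
  refine pt_okq (γ := γ × List ℕ) (n := fun z => n z.1) (K := fun z => K z.1) (t := fun z => t z.1)
    (h := fun z => h z.1) (Q := fun z => z.2) (by fun_prop) (by fun_prop) (by fun_prop) ?_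
    (by fun_prop)
  exact PolyTime.comp (g := fun z : γ × ℕ => h z.1 z.2)
    (f := fun y : (γ × List ℕ) × ℕ => (y.1.1, y.2)) hh (by fun_prop)

theorem pt_vlK (k : ℕ) {n s s' K t : γ → ℕ} {h : γ → ℕ → ℕ} {b : γ → ℕ → Bool} {f : γ → CList}
    (hn : PolyTime n) (hs : PolyTime s) (hs' : PolyTime s')
    (hK : PolyTime K) (ht : PolyTime t) (hh : PolyTime (fun z : γ × ℕ => h z.1 z.2))
    (hb : PolyTime (fun z : γ × ℕ => b z.1 z.2)) (hf : PolyTime f) :
    PolyTime fun c => vlK (n c) k (s c) (s' c) (K c) (t c) (h c) (b c) (f c) := by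
  have h1 : PolyTime fun c => (f c).find? fun e =>
      tst (n c) k (s c) (s' c) (K c) (t c) (h c) (b c) e := by
    refine PolyTime.find? (f := fun c e => tst (n c) k (s c) (s' c) (K c) (t c) (h c) (b c) e)
      hf ?_
    refine pt_tst k (γ := γ × (List Clause × Bool)) (n := fun z => n z.1) (s := fun z => s z.1)
      (s' := fun z => s' z.1)
      (K := fun z => K z.1) (t := fun z => t z.1) (h := fun z => h z.1) (b := fun z => b z.1)
      (e := fun z => z.2) (by fun_prop) (by fun_prop) (by fun_prop) (by fun_prop) (by fun_prop)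
      ?_ ?_ (by fun_prop)
    · exact PolyTime.comp (g := fun z : γ × ℕ => h z.1 z.2)
        (f := fun y : (γ × (List Clause × Bool)) × ℕ => (y.1.1, y.2)) hh (by fun_prop)
    · exact PolyTime.comp (g := fun z : γ × ℕ => b z.1 z.2)
        (f := fun y : (γ × (List Clause × Bool)) × ℕ => (y.1.1, y.2)) hb (by fun_prop)
  have h2 : PolyTime fun c => ((f c).find? fun e =>
      tst (n c) k (s c) (s' c) (K c) (t c) (h c) (b c) e).elim false fun e => e.2 :=
    PolyTime.option_elim (g := fun _ (e : List Clause × Bool) => e.2) h1 (by fun_prop)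
      (by fun_prop)
  exact PolyTime.congr h2 fun c => (vlK_eq _ _ _ _ _ _ _ _ _).symm

/-! ### The output gate -/

/-- The entries of the truth table with the lowest digit `d`. -/
def hlv (T : List Bool) (d : Bool) : List Bool :=
  (List.range T.length).map fun i => T.getD (2 * i + if d = true then 1 else 0) false

theorem getD_hlv (T : List Bool) (d : Bool) (i : ℕ) :
    (hlv T d).getD i false = T.getD ((if d = true then 1 else 0) + 2 * i) false := by
  unfold hlv
  rw [List.getD_eq_getElem?_getD, List.getElem?_map]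
  by_cases hi : i < T.length
  · rw [List.getElem?_range hi]
    simp [Nat.add_comm]
  · rw [List.getElem?_eq_none (by simpa using hi)]
    rw [List.getD_eq_getElem?_getD, List.getElem?_eq_none (by omega)]
    rfl

theorem foldl_hlv (n k s s' K t : ℕ) (h : ℕ → ℕ) (b : ℕ → Bool) (l : List CList) :
    ∀ T : List Bool, ((l.map fun f => vlK n k s s' K t h b f).foldl hlv T).getD 0 false =
      T.getD (ixK n k s s' K t h b l) false := by
  induction l with
  | nil => intro T; rfl
  | cons f l ih =>
    intro T
    rw [List.map_cons, List.foldl_cons, ih, getD_hlv, ixK]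

theorem pt_hlv {T : γ → List Bool} {d : γ → Bool} (hT : PolyTime T) (hd : PolyTime d) :
    PolyTime fun c => hlv (T c) (d c) := by
  unfold hlv
  refine PolyTime.list_map (l := fun c => List.range (T c).length)
    (f := fun c i => (T c).getD (2 * i + if d c = true then 1 else 0) false) (by fun_prop) ?_
  have h1 : PolyTime fun z : γ × ℕ => (if d z.1 = true then 1 else 0 : ℕ) :=
    PolyTime.itep (PolyTime.decide_eq (by fun_prop) (by fun_prop)) (by fun_prop) (by fun_prop)
  exact PolyTime.getD (n := fun z : γ × ℕ => 2 * z.2 + if d z.1 = true then 1 else 0)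
    (l := fun z : γ × ℕ => T z.1) (d := fun _ => false) (by fun_prop)
    (PolyTime.add (by fun_prop) h1) (by fun_prop)

theorem pt_gate {T : γ → List Bool} {ds : γ → List Bool} (hT : PolyTime T) (hds : PolyTime ds) :
    PolyTime fun c => ((ds c).foldl hlv (T c)).getD 0 false := by
  have h1 : PolyTime fun c => (ds c).foldl hlv (T c) := by
    refine PolyTime.foldl_inv (l := ds) (s0 := T) (step := fun _ T d => hlv T d) hds hT ?_
      (fun c T' => T'.length = (T c).length) (B := fun c => 4 * (T c).length + 1)
      (((PBd.const 4).mul (PBd.length hT)).add (PBd.const 1)) (fun c => rfl) ?_ ?_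
    · exact pt_hlv (γ := γ × List Bool × Bool) (T := fun z => z.2.1) (d := fun z => z.2.2)
        (by fun_prop) (by fun_prop)
    · intro c T' d _ hI
      simp only [hlv, List.length_map, List.length_range]
      exact hI
    · intro c T' hI
      have := sz_bools T'
      omega
  exact PolyTime.getD (n := fun _ => 0) (l := fun c => (ds c).foldl hlv (T c))
    (d := fun _ => false) h1 (by fun_prop) (by fun_prop)

end

theorem pt_outK {γ : Type} [ToData γ] (k : ℕ) {z : γ → Circuit} {s s' K t : γ → ℕ}
    {h : γ → ℕ → ℕ} {b : γ → ℕ → Bool} (hz : PolyTime z) (hs : PolyTime s) (hs' : PolyTime s')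
    (hK : PolyTime K) (ht : PolyTime t)
    (hh : PolyTime (fun z : γ × ℕ => h z.1 z.2)) (hb : PolyTime (fun z : γ × ℕ => b z.1 z.2)) :
    PolyTime fun c => outK (z c) k (s c) (s' c) (K c) (t c) (h c) (b c) := by
  have h1 : PolyTime fun c => (z c).2.1.map fun f =>
      vlK (z c).1 k (s c) (s' c) (K c) (t c) (h c) (b c) f := by
    refine PolyTime.list_map (l := fun c => (z c).2.1)
      (f := fun c f => vlK (z c).1 k (s c) (s' c) (K c) (t c) (h c) (b c) f)
      (PolyTime.fst (PolyTime.snd hz)) ?_
    refine pt_vlK k (γ := γ × CList) (n := fun y => (z y.1).1) (s := fun y => s y.1)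
      (s' := fun y => s' y.1)
      (K := fun y => K y.1) (t := fun y => t y.1) (h := fun y => h y.1) (b := fun y => b y.1)
      (f := fun y => y.2) ?_ (by fun_prop) (by fun_prop) (by fun_prop) (by fun_prop) ?_ ?_
      (by fun_prop)
    · exact PolyTime.comp (g := fun c => (z c).1) (f := fun y : γ × CList => y.1)
        (PolyTime.fst hz) (by fun_prop)
    · exact PolyTime.comp (g := fun z : γ × ℕ => h z.1 z.2)
        (f := fun y : (γ × CList) × ℕ => (y.1.1, y.2)) hh (by fun_prop)
    · exact PolyTime.comp (g := fun z : γ × ℕ => b z.1 z.2)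
        (f := fun y : (γ × CList) × ℕ => (y.1.1, y.2)) hb (by fun_prop)
  have h2 : PolyTime fun c => (z c).2.2 := PolyTime.snd (PolyTime.snd hz)
  exact PolyTime.congr (pt_gate h2 h1) fun c => foldl_hlv _ _ _ _ _ _ _ _ _ _

theorem pt_size : PolyTime fun z : Circuit => size z := by
  have h1 : PolyTime fun C : Clause => 1 + C.length := by fun_prop
  have h2 : PolyTime fun F : List Clause => (F.map fun C => 1 + C.length).sum :=
    PolyTime.sum (PolyTime.list_map (l := fun F : List Clause => F)
      (f := fun _ (C : Clause) => 1 + C.length) (by fun_prop)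
      (PolyTime.comp (g := fun C : Clause => 1 + C.length) h1 (by fun_prop)))
  have h3 : PolyTime fun e : List Clause × Bool => 1 + (e.1.map fun C => 1 + C.length).sum :=
    PolyTime.add (by fun_prop)
      (PolyTime.comp (g := fun F : List Clause => (F.map fun C => 1 + C.length).sum) h2
        (by fun_prop))
  have h4 : PolyTime fun f : CList => lsize f :=
    PolyTime.sum (PolyTime.list_map (l := fun f : CList => f)
      (f := fun _ (e : List Clause × Bool) => 1 + (e.1.map fun C => 1 + C.length).sum)
      (by fun_prop)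
      (PolyTime.comp (g := fun e : List Clause × Bool =>
        1 + (e.1.map fun C => 1 + C.length).sum) h3 (by fun_prop)))
  have h5 : PolyTime fun f : CList => 1 + lsize f := PolyTime.add (by fun_prop) h4
  have h6 : PolyTime fun l : List CList => (l.map fun f => 1 + lsize f).sum :=
    PolyTime.sum (PolyTime.list_map (l := fun l : List CList => l)
      (f := fun _ (f : CList) => 1 + lsize f) (by fun_prop)
      (PolyTime.comp (g := fun f : CList => 1 + lsize f) h5 (by fun_prop)))
  unfold size
  refine PolyTime.add (PolyTime.add (by fun_prop) ?_) (by fun_prop)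
  exact PolyTime.comp (g := fun l : List CList => (l.map fun f => 1 + lsize f).sum)
    (f := fun z : Circuit => z.2.1) h6 (by fun_prop)

/-- **CKP.** The circuits are evaluated in polynomial time. -/
theorem ckp : CkpStmt := by
  refine ⟨?_, pt_size, by fun_prop⟩
  intro k s s' hs hs' γ _ x K t h b hx hK ht hh hb
  exact pt_outK k hx (PolyTime.comp hs hx) (PolyTime.comp hs' hx) hK ht hh hb

end Pool.Agent.Helper63.JT
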